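import Pool.Agent.H408Z.Help.PhiLower
import Pool.Agent.H376Z.HC.C2

set_option autoImplicit false
open Finset

namespace Pool.Agent.H590Z.HC

namespace C3

lemma cs (f g : ℤ → ℝ) (F : Finset ℤ) (A B : ℝ) (hA : 0 ≤ A) (hB : 0 ≤ B)
    (h1 : ∑ n ∈ F, f n ^ 2 ≤ A ^ 2) (h2 : ∑ n ∈ F, g n ^ 2 ≤ B ^ 2) :
    ∑ n ∈ F, f n * g n ≤ A * B := by
  have h := Finset.sum_mul_sq_le_sq_mul_sq F f g
  have h3 : (∑ n ∈ F, f n * g n) ^ 2 ≤ (A * B) ^ 2 := by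
    refine h.trans ?_
    rw [mul_pow]
    exact mul_le_mul h1 h2 (Finset.sum_nonneg fun n _ => sq_nonneg _) (sq_nonneg _)
  exact (abs_le_of_sq_le_sq' h3 (by positivity)).2

lemma l1 (g : ℤ → ℝ) (F : Finset ℤ) (A B : ℝ) (hA : 0 ≤ A) (hB : 0 ≤ B)
    (h1 : (F.card : ℝ) ≤ A ^ 2) (h2 : ∑ n ∈ F, g n ^ 2 ≤ B ^ 2) :
    ∑ n ∈ F, g n ≤ A * B := by
  have := cs (fun _ => 1) g F A B hA hB (by simpa using h1) h2
  simpa using this

lemma cheb (g : ℤ → ℝ) (F : Finset ℤ) (t B : ℝ) (h : ∀ n ∈ F, t ≤ g n)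
    (h2 : ∑ n ∈ F, g n ≤ B) : (F.card : ℝ) * t ≤ B := by
  have := Finset.card_nsmul_le_sum F g t h
  rw [nsmul_eq_mul] at this
  exact this.trans h2

lemma card4 (S : Finset ℤ) (p1 p2 p3 : ℤ → Prop) [DecidablePred p1] [DecidablePred p2]
    [DecidablePred p3] :
    (S.card : ℝ) ≤ (S.filter p1).card + (S.filter p2).card + (S.filter p3).card +
      (S.filter fun n => ¬ p1 n ∧ ¬ p2 n ∧ ¬ p3 n).card := by
  have h : S ⊆ S.filter p1 ∪ S.filter p2 ∪ S.filter p3 ∪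
      (S.filter fun n => ¬ p1 n ∧ ¬ p2 n ∧ ¬ p3 n) := by
    intro n hn
    simp only [mem_union, mem_filter]
    tauto
  have h2 := card_le_card h
  have h3 := card_union_le (S.filter p1 ∪ S.filter p2 ∪ S.filter p3)
    (S.filter fun n => ¬ p1 n ∧ ¬ p2 n ∧ ¬ p3 n)
  have h4 := card_union_le (S.filter p1 ∪ S.filter p2) (S.filter p3)
  have h5 := card_union_le (S.filter p1) (S.filter p2)
  have : S.card ≤ (S.filter p1).card + (S.filter p2).card + (S.filter p3).card +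
      (S.filter fun n => ¬ p1 n ∧ ¬ p2 n ∧ ¬ p3 n).card := by omega
  exact_mod_cast this

lemma sum4 (g : ℤ → ℝ) (S : Finset ℤ) (p1 p2 : ℤ → Prop) [DecidablePred p1] [DecidablePred p2] :
    ∑ n ∈ S, g n = ∑ n ∈ S.filter p1, g n + ∑ n ∈ S.filter (fun n => ¬ p1 n ∧ p2 n), g n +
      ∑ n ∈ S.filter (fun n => ¬ p1 n ∧ ¬ p2 n ∧ g n ≠ 0), g n := by
  simp only [sum_filter, ← sum_add_distrib]
  refine sum_congr rfl fun n _ => ?_
  by_cases h1 : p1 n <;> by_cases h2 : p2 n <;> by_cases h3 : g n = 0 <;> simp [h1, h2, h3]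

end C3

open C3 in
theorem core (x y ξ ξ' : ℤ → ℂ) (M a b D A σ : ℝ) (L q : ℕ) (Bad1 Bad2 W : Finset ℤ)
    (hH : ∀ (c : ℤ → ℂ) (F G : Finset ℤ),
      ∑ m ∈ G, ‖∑ n ∈ F, c n / ((m : ℂ) + 1 / 2 - n)‖ ^ 2 ≤ 10 * ∑ n ∈ F, ‖c n‖ ^ 2)
    (hWk : ∀ (c : ℤ → ℂ) (F G : Finset ℤ) (lam : ℝ), 0 < lam →
      (∀ m ∈ G, lam < ‖∑ n ∈ F, c n / ((m : ℂ) + 1 / 2 - n)‖) → lam * G.card ≤ 64 * ∑ n ∈ F, ‖c n‖)
    (hL : 1 ≤ L) (hM : 1 ≤ M) (ha0 : 0 ≤ a) (hb0 : 0 ≤ b) (hD0 : 0 ≤ D) (hA0 : 0 ≤ A) (hσ : 0 < σ)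
    (hq : 1000 * M ^ 2 ≤ 2 ^ q) (hab : a * b ≤ 1 / 10 ^ 5)
    (hx : ∀ F : Finset ℤ, ∑ n ∈ F, ‖x n‖ ^ 2 ≤ M ^ 2) (hy : ∀ F : Finset ℤ, ∑ n ∈ F, ‖y n‖ ^ 2 ≤ M ^ 2)
    (hκ : HasSum (fun n => x n * y n) 1)
    (ha : ∀ F : Finset ℤ, (∀ n ∈ F, (L : ℤ) ≤ |n| ∧ |n| ≤ 2 ^ (12 * q) * L) → ∑ n ∈ F, ‖x n‖ ^ 2 ≤ a ^ 2)
    (hb : ∀ F : Finset ℤ, (∀ n ∈ F, (L : ℤ) ≤ |n| ∧ |n| ≤ 2 ^ (12 * q) * L) → ∑ n ∈ F, ‖y n‖ ^ 2 ≤ b ^ 2)
    (htail : ∀ F : Finset ℤ, (∀ n ∈ F, (L : ℤ) ≤ |n|) → ∑ n ∈ F, ‖x n * y n‖ ≤ 1 / 16)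
    (h1 : ∀ m : ℤ, ξ' m * ∑' n : ℤ, y n / ((m : ℂ) + 1 / 2 - n) =
      ∑' n : ℤ, x n * y n / ((m : ℂ) + 1 / 2 - n))
    (h2 : ∀ n : ℤ, n ∉ Bad1 → n ∉ Bad2 → |n| ≤ 2 ^ (10 * q) * L → y n ≠ 0 → x n = ξ n)
    (h3 : ∀ F : Finset ℤ, (∀ n ∈ F, n ∉ Bad1 ∧ n ∉ Bad2 ∧ |n| ≤ 2 ^ (10 * q) * L) →
      ∑ n ∈ F, ‖ξ' n - ξ n‖ ^ 2 ≤ D ^ 2)
    (hB0 : ∀ n : ℤ, |n| < 2 ^ (6 * q) * L → n ∈ Bad1) (hB1 : Bad1.card ≤ 8 * (2 ^ (6 * q) * L))
    (hB2 : σ ^ 2 * Bad2.card ≤ 2 ^ (8 * q) * L)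
    (hB3 : ∀ n ∈ Bad2, (L : ℤ) ≤ |n| ∧ |n| ≤ 2 ^ (12 * q) * L)
    (hW1 : ∀ m ∈ W, (2 : ℤ) ^ (8 * q) * L ≤ m ∧ m ≤ 2 * (2 ^ (8 * q) * L))
    (hW2 : 2 ^ (8 * q) * L ≤ 2 * W.card) (h4 : ∑ m ∈ W, ‖ξ' m‖ ^ 2 ≤ A ^ 2) :
    1 ≤ 10 ^ 7 * A * ((a + b + D) * b + M / 2 ^ q + b / σ) := by
  classical
  have hLr : (1 : ℝ) ≤ L := by exact_mod_cast hL
  have hLz : (1 : ℤ) ≤ L := by exact_mod_cast hL
  have hw : (1000 : ℝ) ≤ 2 ^ q := by nlinarith only [hq, hM]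
  have hw0 : (0 : ℝ) < 2 ^ q := by positivity
  have hM0 : 0 ≤ M := by linarith
  -- integer power comparisons
  have pz : ∀ i j : ℕ, i ≤ j → (2 : ℤ) ^ (i * q) * L ≤ 2 ^ (j * q) * L := by
    intro i j hij
    have : (2 : ℤ) ^ (i * q) ≤ 2 ^ (j * q) :=
      pow_le_pow_right₀ (by norm_num) (Nat.mul_le_mul_right q hij)
    exact mul_le_mul_of_nonneg_right this (by linarith)
  have pz0 : ∀ j : ℕ, (L : ℤ) ≤ 2 ^ (j * q) * L := by
    intro j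
    simpa using pz 0 j (Nat.zero_le _)
  set T : ℝ := 2 ^ (8 * q) * L with hT
  have hT0 : 0 < T := by positivity
  have hT10 : (2 : ℝ) ^ (10 * q) * L = (2 ^ q) ^ 2 * T := by
    rw [hT, ← pow_mul, ← mul_assoc, ← pow_add]; congr 2; ring
  have hT6 : T = (2 ^ q) ^ 2 * ((2 : ℝ) ^ (6 * q) * L) := by
    rw [hT, ← pow_mul, ← mul_assoc, ← pow_add]; congr 2; ring
  have h4T : 4 * T ≤ (2 : ℝ) ^ (10 * q) * L := by
    rw [hT10]
    exact mul_le_mul_of_nonneg_right (by nlinarith only [hw]) hT0.le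
  have hcM : ∀ F : Finset ℤ, ∑ n ∈ F, ‖x n * y n‖ ≤ M ^ 2 := by
    intro F
    simp only [norm_mul]
    have := cs (fun n => ‖x n‖) (fun n => ‖y n‖) F M M hM0 hM0 (hx F) (hy F)
    simpa [sq] using this
  have hce : ∀ F : Finset ℤ, (∀ n ∈ F, (L : ℤ) ≤ |n| ∧ |n| ≤ 2 ^ (12 * q) * L) →
      ∑ n ∈ F, ‖x n * y n‖ ≤ a * b := by
    intro F hF
    simp only [norm_mul]
    exact cs (fun n => ‖x n‖) (fun n => ‖y n‖) F a b ha0 hb0 (ha F hF) (hb F hF)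
  set E : ℝ := 64 * (a + b + D) * b + 3 * M / 2 ^ q + b / σ with hE
  have hE1 : 3 * M / 2 ^ q ≤ E := by
    have : 0 ≤ 64 * (a + b + D) * b := by positivity
    have : 0 ≤ b / σ := by positivity
    linarith
  have hE0 : 0 < E := lt_of_lt_of_le (by positivity) hE1
  have step1 : ∀ r : ℝ, T ≤ r → r ≤ 2 ^ (10 * q) * L → ∀ F : Finset ℤ,
      (∀ n ∈ F, ((|n| : ℤ) : ℝ) ≤ r) → ∑ n ∈ F, ‖y n‖ ≤ √r * E := by
    intro r hr hr' F hF
    have hr0 : 0 < r := lt_of_lt_of_le hT0 hr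
    have hs0 : 0 < √r := Real.sqrt_pos.2 hr0
    have hss : √r ^ 2 = r := Real.sq_sqrt hr0.le
    have hF10 : ∀ n ∈ F, |n| ≤ 2 ^ (10 * q) * L := by
      intro n hn
      have := (hF n hn).trans hr'
      exact_mod_cast this
    rw [sum4 (fun n => ‖y n‖) F (fun n => n ∈ Bad1) (fun n => n ∈ Bad2)]
    have e1 : ∑ n ∈ F.filter (fun n => n ∈ Bad1), ‖y n‖ ≤ (3 * √r / 2 ^ q) * M := by
      refine l1 _ _ _ _ (by positivity) hM0 ?_ (hy _)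
      have c1 : (F.filter (fun n => n ∈ Bad1)).card ≤ Bad1.card :=
        card_le_card fun n hn => (mem_filter.1 hn).2
      have c2 : ((F.filter (fun n => n ∈ Bad1)).card : ℝ) ≤ 8 * (2 ^ (6 * q) * L) := by
        exact_mod_cast c1.trans hB1
      refine c2.trans ?_
      rw [div_pow, mul_pow, hss, le_div_iff₀ (by positivity)]
      linarith only [hT6, hr, hT0]
    have e2 : ∑ n ∈ F.filter (fun n => ¬ n ∈ Bad1 ∧ n ∈ Bad2), ‖y n‖ ≤ (√r / σ) * b := by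
      refine l1 _ _ _ _ (by positivity) hb0 ?_ (hb _ fun n hn => hB3 n (mem_filter.1 hn).2.2)
      have c1 : (F.filter (fun n => ¬ n ∈ Bad1 ∧ n ∈ Bad2)).card ≤ Bad2.card :=
        card_le_card fun n hn => (mem_filter.1 hn).2.2
      have c2 : ((F.filter (fun n => ¬ n ∈ Bad1 ∧ n ∈ Bad2)).card : ℝ) ≤ Bad2.card := by
        exact_mod_cast c1
      refine c2.trans ?_
      rw [div_pow, hss, le_div_iff₀ (by positivity)]
      linarith only [hB2, hr]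
    set S := F.filter (fun n => ¬ n ∈ Bad1 ∧ ¬ n ∈ Bad2 ∧ ‖y n‖ ≠ 0) with hS
    have hS6 : ∀ n ∈ S, (2 : ℤ) ^ (6 * q) * L ≤ |n| := by
      intro n hn
      by_contra hc
      exact (mem_filter.1 hn).2.1 (hB0 n (not_le.1 hc))
    have hS10 : ∀ n ∈ S, |n| ≤ (2 : ℤ) ^ (10 * q) * L := fun n hn => hF10 n (mem_filter.1 hn).1
    have hSmid : ∀ n ∈ S, (L : ℤ) ≤ |n| ∧ |n| ≤ 2 ^ (12 * q) * L := fun n hn =>
      ⟨(pz0 6).trans (hS6 n hn), (hS10 n hn).trans (pz 10 12 (by norm_num))⟩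
    have e3 : ∑ n ∈ S, ‖y n‖ ≤ (√r * (64 * (a + b + D))) * b := by
      refine l1 _ _ _ _ (by positivity) hb0 ?_ (hb _ hSmid)
      have k := card4 S (fun n => 1 / r ≤ ‖x n‖ ^ 2) (fun n => 1 / r ≤ ‖ξ' n - ξ n‖ ^ 2)
        (fun m => ‖∑' n : ℤ, x n * y n / ((m : ℂ) + 1 / 2 - n)‖ < 1 / (4 * r))
      have k1 : ((S.filter (fun n => 1 / r ≤ ‖x n‖ ^ 2)).card : ℝ) ≤ r * a ^ 2 := by
        have := cheb (fun n => ‖x n‖ ^ 2) (S.filter (fun n => 1 / r ≤ ‖x n‖ ^ 2)) (1 / r) (a ^ 2)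
          (fun n hn => (mem_filter.1 hn).2) (ha _ fun n hn => hSmid n (mem_filter.1 hn).1)
        rw [mul_one_div, div_le_iff₀ hr0] at this
        linarith
      have k2 : ((S.filter (fun n => 1 / r ≤ ‖ξ' n - ξ n‖ ^ 2)).card : ℝ) ≤ r * D ^ 2 := by
        have := cheb (fun n => ‖ξ' n - ξ n‖ ^ 2) (S.filter (fun n => 1 / r ≤ ‖ξ' n - ξ n‖ ^ 2))
          (1 / r) (D ^ 2) (fun n hn => (mem_filter.1 hn).2)
          (h3 _ fun n hn => by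
            have h := (mem_filter.1 hn).1
            exact ⟨(mem_filter.1 h).2.1, (mem_filter.1 h).2.2.1, hS10 n h⟩)
        rw [mul_one_div, div_le_iff₀ hr0] at this
        linarith
      have k3 : ((S.filter (fun m : ℤ =>
          ‖∑' n : ℤ, x n * y n / ((m : ℂ) + 1 / 2 - n)‖ < 1 / (4 * r))).card : ℝ) ≤
          512 * (a * b) * r := by
        refine phi_lower (fun n => x n * y n) M (a * b) r L q _ hWk hL hM hq hκ hcM hce htail hr hr' ?_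
        intro m hm
        have h := (mem_filter.1 hm).1
        exact ⟨hS6 m h, hF m (mem_filter.1 h).1, (mem_filter.1 hm).2⟩
      have k4 : ((S.filter (fun m : ℤ => ¬ 1 / r ≤ ‖x m‖ ^ 2 ∧ ¬ 1 / r ≤ ‖ξ' m - ξ m‖ ^ 2 ∧
          ¬ ‖∑' n : ℤ, x n * y n / ((m : ℂ) + 1 / 2 - n)‖ < 1 / (4 * r))).card : ℝ) ≤
          2560 * r * b ^ 2 := by
        set Mid := (Icc (-(2 ^ (12 * q) * L : ℤ)) (2 ^ (12 * q) * L)).filter
          (fun n => (L : ℤ) ≤ |n|) with hMid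
        have hMb : ∑ n ∈ Mid, ‖y n‖ ^ 2 ≤ b ^ 2 := by
          refine hb _ fun n hn => ?_
          have h := mem_filter.1 hn
          exact ⟨h.2, abs_le.2 (mem_Icc.1 h.1)⟩
        have := cheb (fun m => ‖∑ n ∈ Mid, y n / ((m : ℂ) + 1 / 2 - n)‖ ^ 2)
          (S.filter (fun m : ℤ => ¬ 1 / r ≤ ‖x m‖ ^ 2 ∧ ¬ 1 / r ≤ ‖ξ' m - ξ m‖ ^ 2 ∧
          ¬ ‖∑' n : ℤ, x n * y n / ((m : ℂ) + 1 / 2 - n)‖ < 1 / (4 * r))) (1 / (256 * r))
          (10 * b ^ 2) ?_ ((hH y Mid _).trans (by linarith))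
        · rw [mul_one_div, div_le_iff₀ (by positivity)] at this
          linarith
        intro m hm
        obtain ⟨hmS, g1, g2, g3⟩ := mem_filter.1 hm
        obtain ⟨hmF, b1, b2, b3⟩ := mem_filter.1 hmS
        have hxm : x m = ξ m := h2 m b1 b2 (hS10 m hmS) (by simpa using b3)
        have hinv : (1 / √r) ^ 2 = 1 / r := by rw [div_pow, hss, one_pow]
        have g1' : ‖x m‖ ≤ 1 / √r := by
          refine (abs_le_of_sq_le_sq' ?_ (by positivity)).2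
          rw [hinv]; exact (not_le.1 g1).le
        have g2' : ‖ξ' m - ξ m‖ ≤ 1 / √r := by
          refine (abs_le_of_sq_le_sq' ?_ (by positivity)).2
          rw [hinv]; exact (not_le.1 g2).le
        have g4 : ‖ξ' m‖ ≤ 2 / √r := by
          have : ξ' m = (ξ' m - ξ m) + x m := by rw [hxm]; ring
          have h5 := norm_add_le (ξ' m - ξ m) (x m)
          rw [← this] at h5
          have : 2 / √r = 1 / √r + 1 / √r := by ring
          linarith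
        have g5 := not_lt.1 g3
        rw [← h1 m, norm_mul] at g5
        set Y := ∑' n : ℤ, y n / ((m : ℂ) + 1 / 2 - n) with hY
        have g6 : 1 / (8 * √r) ≤ ‖Y‖ := by
          have h6 : 1 / (4 * r) ≤ 2 / √r * ‖Y‖ :=
            g5.trans (mul_le_mul_of_nonneg_right g4 (norm_nonneg _))
          have h7 : 1 / (4 * r) = 2 / √r * (1 / (8 * √r)) := by
            rw [div_mul_div_comm, mul_left_comm, ← sq, hss, div_eq_div_iff (by positivity) (by positivity)]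
            ring
          rw [h7] at h6
          exact le_of_mul_le_mul_left h6 (by positivity)
        have g7 := y_mid y M r L q m hL hM hq hy hr0 hr' (hS6 m hmS) (hS10 m hmS)
        rw [← hMid, ← hY] at g7
        set Z := ∑ n ∈ Mid, y n / ((m : ℂ) + 1 / 2 - n) with hZ
        have g8 : 1 / (16 * √r) ≤ ‖Z‖ := by
          have h8 := norm_add_le (Y - Z) Z
          rw [sub_add_cancel] at h8
          have : 1 / (8 * √r) = 1 / (16 * √r) + 1 / (16 * √r) := by field_simp; norm_num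
          linarith
        have h9 : 1 / (256 * r) = (1 / (16 * √r)) ^ 2 := by
          rw [div_pow, mul_pow, hss]; norm_num
        show 1 / (256 * r) ≤ ‖Z‖ ^ 2
        rw [h9]
        exact pow_le_pow_left₀ (by positivity) g8 2
      refine k.trans ?_
      rw [mul_pow, hss]
      have q1 : 0 ≤ r * (a * b) := by positivity
      have q2 : 0 ≤ r * (a * D) := by positivity
      have q3 : 0 ≤ r * (b * D) := by positivity
      have q4 : 0 ≤ r * a ^ 2 := by positivity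
      have q5 : 0 ≤ r * b ^ 2 := by positivity
      have q6 : 0 ≤ r * D ^ 2 := by positivity
      linarith only [k1, k2, k3, k4, q1, q2, q3, q4, q5, q6]
    have : √r * E = (3 * √r / 2 ^ q) * M + (√r / σ) * b + (√r * (64 * (a + b + D))) * b := by
      rw [hE]; ring
    rw [this]
    linarith
  -- step 2
  have hsT : 0 < √T := Real.sqrt_pos.2 hT0
  have hsT2 : √T ^ 2 = T := Real.sq_sqrt hT0.le
  set I4 := Icc (-(4 * (2 ^ (8 * q) * L) : ℤ)) (4 * (2 ^ (8 * q) * L)) with hI4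
  have k := card4 W
    (fun m : ℤ => ‖∑' n : ℤ, x n * y n / ((m : ℂ) + 1 / 2 - n)‖ < 1 / (4 * (2 * T)))
    (fun m => 8 * A ^ 2 < T * ‖ξ' m‖ ^ 2)
    (fun m : ℤ => 1024 * E / √T < ‖∑ n ∈ I4, y n / ((m : ℂ) + 1 / 2 - n)‖)
  have hWr : ∀ m ∈ W, (2 : ℤ) ^ (6 * q) * L ≤ |m| ∧ ((|m| : ℤ) : ℝ) ≤ 2 * T := by
    intro m hm
    obtain ⟨u1, u2⟩ := hW1 m hm
    have u0 : 0 ≤ m := le_trans (by positivity) u1
    rw [abs_of_nonneg u0]
    refine ⟨(pz 6 8 (by norm_num)).trans u1, ?_⟩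
    rw [hT]
    exact_mod_cast u2
  have k1 : ((W.filter (fun m : ℤ =>
      ‖∑' n : ℤ, x n * y n / ((m : ℂ) + 1 / 2 - n)‖ < 1 / (4 * (2 * T)))).card : ℝ) ≤ T / 8 := by
    have := phi_lower (fun n => x n * y n) M (a * b) (2 * T) L q (W.filter (fun m : ℤ =>
      ‖∑' n : ℤ, x n * y n / ((m : ℂ) + 1 / 2 - n)‖ < 1 / (4 * (2 * T)))) hWk hL hM hq hκ hcM hce
      htail (by linarith) (by linarith) (fun m hm => by
        have h := mem_filter.1 hm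
        exact ⟨(hWr m h.1).1, (hWr m h.1).2, h.2⟩)
    refine this.trans ?_
    have := mul_le_mul_of_nonneg_right hab hT0.le
    linarith only [this, hT0]
  have k2 : ((W.filter (fun m => 8 * A ^ 2 < T * ‖ξ' m‖ ^ 2)).card : ℝ) ≤ T / 8 := by
    set V := W.filter (fun m => 8 * A ^ 2 < T * ‖ξ' m‖ ^ 2) with hV
    rcases V.eq_empty_or_nonempty with h0 | h0
    · rw [h0]; simp; positivity
    have s1 : ∑ _m ∈ V, 8 * A ^ 2 < ∑ m ∈ V, T * ‖ξ' m‖ ^ 2 :=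
      sum_lt_sum_of_nonempty h0 fun m hm => (mem_filter.1 hm).2
    have s2 : ∑ m ∈ V, ‖ξ' m‖ ^ 2 ≤ A ^ 2 :=
      (sum_le_sum_of_subset_of_nonneg (filter_subset _ _) fun m _ _ => sq_nonneg _).trans h4
    rw [sum_const, nsmul_eq_mul, ← mul_sum] at s1
    have s3 : (V.card : ℝ) * (8 * A ^ 2) < T * A ^ 2 :=
      s1.trans_le (mul_le_mul_of_nonneg_left s2 hT0.le)
    by_contra hc
    have hc' := mul_le_mul_of_nonneg_right (not_le.1 hc).le (sq_nonneg A)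
    linarith only [hc', s3]
  have k3 : ((W.filter (fun m : ℤ =>
      1024 * E / √T < ‖∑ n ∈ I4, y n / ((m : ℂ) + 1 / 2 - n)‖)).card : ℝ) ≤ T / 8 := by
    have s1 := hWk y I4 (W.filter (fun m : ℤ =>
      1024 * E / √T < ‖∑ n ∈ I4, y n / ((m : ℂ) + 1 / 2 - n)‖)) (1024 * E / √T) (by positivity)
      (fun m hm => (mem_filter.1 hm).2)
    have s2 := step1 (4 * T) (by linarith) h4T I4 (fun n hn => by
      have h := abs_le.2 (mem_Icc.1 hn)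
      rw [hT]
      exact_mod_cast h)
    have s3 : √(4 * T) = 2 * √T := by
      rw [Real.sqrt_mul (by norm_num), show (4 : ℝ) = 2 ^ 2 by norm_num,
        Real.sqrt_sq (by norm_num)]
    rw [s3] at s2
    set N : ℝ := ((W.filter (fun m : ℤ =>
      1024 * E / √T < ‖∑ n ∈ I4, y n / ((m : ℂ) + 1 / 2 - n)‖)).card : ℝ)
    have s4 : 1024 * E / √T * N ≤ 128 * √T * E := by linarith
    rw [div_mul_eq_mul_div, div_le_iff₀ hsT] at s4
    have s5 : E * (1024 * N) ≤ E * (128 * T) := by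
      rw [← hsT2]; linarith only [s4]
    have := le_of_mul_le_mul_left s5 hE0
    linarith
  have hWc : T ≤ 2 * (W.card : ℝ) := by rw [hT]; exact_mod_cast hW2
  have hpos : (0 : ℝ) < (W.filter fun m : ℤ =>
      ¬ ‖∑' n : ℤ, x n * y n / ((m : ℂ) + 1 / 2 - n)‖ < 1 / (4 * (2 * T)) ∧
      ¬ 8 * A ^ 2 < T * ‖ξ' m‖ ^ 2 ∧
      ¬ 1024 * E / √T < ‖∑ n ∈ I4, y n / ((m : ℂ) + 1 / 2 - n)‖).card := by linarith
  obtain ⟨m, hm⟩ := card_pos.1 (by exact_mod_cast hpos)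
  obtain ⟨hmW, g1, g2, g3⟩ := mem_filter.1 hm
  have g4 := y_far y M E L q m hL hM hq hy hE1 step1 (hW1 m hmW).1 (hW1 m hmW).2
  rw [← hI4, ← hT] at g4
  have g5 := not_lt.1 g1
  rw [← h1 m, norm_mul] at g5
  set Y := ∑' n : ℤ, y n / ((m : ℂ) + 1 / 2 - n) with hY
  set Z := ∑ n ∈ I4, y n / ((m : ℂ) + 1 / 2 - n) with hZ
  have g6 : ‖Y‖ ≤ 1030 * E / √T := by
    have h8 := norm_add_le (Y - Z) Z
    rw [sub_add_cancel] at h8
    have : 1030 * E / √T = 6 * E / √T + 1024 * E / √T := by ring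
    linarith [not_lt.1 g3]
  have g7 : ‖ξ' m‖ ≤ 3 * A / √T := by
    refine (abs_le_of_sq_le_sq' ?_ (by positivity)).2
    rw [div_pow, hsT2, le_div_iff₀ hT0]
    linarith only [not_lt.1 g2, sq_nonneg A]
  have g8 : 1 / (4 * (2 * T)) ≤ 3 * A / √T * (1030 * E / √T) :=
    g5.trans (mul_le_mul g7 g6 (norm_nonneg _) (by positivity))
  have g9 : 3 * A / √T * (1030 * E / √T) = 3090 * A * E / T := by
    rw [div_mul_div_comm, ← sq, hsT2]; ring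
  rw [g9, div_le_div_iff₀ (by positivity) hT0] at g8
  have g10 : 1 ≤ 24720 * A * E := by
    have : T * 1 ≤ T * (24720 * A * E) := by linarith only [g8]
    exact le_of_mul_le_mul_left this hT0
  have g11 : E ≤ 64 * ((a + b + D) * b + M / 2 ^ q + b / σ) := by
    have u1 : 0 ≤ M / 2 ^ q := by positivity
    have u2 : 0 ≤ b / σ := by positivity
    have u3 : 3 * M / 2 ^ q = 3 * (M / 2 ^ q) := by ring
    rw [hE, u3]
    linarith only [u1, u2]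
  have u4 : 0 ≤ (a + b + D) * b + M / 2 ^ q + b / σ := by positivity
  have g12 : A * E ≤ A * (64 * ((a + b + D) * b + M / 2 ^ q + b / σ)) :=
    mul_le_mul_of_nonneg_left g11 hA0
  have u5 : 0 ≤ A * ((a + b + D) * b + M / 2 ^ q + b / σ) := mul_nonneg hA0 u4
  linarith only [g10, g12, u5]

end Pool.Agent.H590Z.HC
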